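import Mathlib
set_option autoImplicit false
namespace Pool.Agent.Results.MP_f6f6d4_al.Yes
open scoped commutatorElement

/-- nontrivial, and `1`, `T` are the only characteristic subgroups -/
def CharSimple (T : Type) [Group T] : Prop :=
  Nontrivial T ∧ ∀ C : Subgroup T, C.Characteristic → C = ⊥ ∨ C = ⊤

/-- isomorphic to `S ^ k` with `S` non-abelian simple and `k ≥ 1` -/
def FCR (T : Type) [Group T] : Prop :=
  ∃ (S : Type) (_ : Group S) (k : ℕ), IsSimpleGroup S ∧ (∃ a b : S, a * b ≠ b * a) ∧ 1 ≤ k ∧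
    Nonempty (T ≃* (Fin k → S))

/-- the diagonal subgroup of `T ^ (m+1)` -/
def diag (T : Type) [Group T] (m : ℕ) : Subgroup (Fin (m + 1) → T) :=
  (Pi.constMonoidHom (Fin (m + 1)) T).range

/-- the right cosets of the diagonal subgroup -/
abbrev Om (T : Type) [Group T] (m : ℕ) := Quotient (QuotientGroup.rightRel (diag T m))

/-- the diagonal group `D(T, m)` -/
def DG (T : Type) [Group T] (m : ℕ) : Subgroup (Equiv.Perm (Om T m)) :=
  Subgroup.closure {σ | (∃ y, ∀ x, σ ⟦x⟧ = ⟦x * y⟧) ∨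
    (∃ α : MulAut T, ∀ x, σ ⟦x⟧ = ⟦fun j => α (x j)⟧) ∨
    ∃ π : Equiv.Perm (Fin (m + 1)), ∀ x, σ ⟦x⟧ = ⟦fun j => x (π j)⟧}

/-- `a`, `b` lie in the same part of the transported partition `Q_J` -/
def Q {Ω Δ : Type} {n : ℕ} (e : Ω ≃ (Fin n → Δ)) (J : Set (Fin n)) (a b : Ω) : Prop :=
  ∀ i ∉ J, e a i = e b i

/-- `G` preserves a Cartesian lattice -/
def PresCart {Ω : Type} (G : Subgroup (Equiv.Perm Ω)) : Prop :=
  ∃ (Δ : Type) (n : ℕ) (e : Ω ≃ (Fin n → Δ)), Nontrivial Δ ∧ 2 ≤ n ∧ ∀ σ ∈ G,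
    (∀ J, ∃ J', ∀ a b, Q e J a b ↔ Q e J' (σ a) (σ b)) ∧
    ∀ J', ∃ J, ∀ a b, Q e J a b ↔ Q e J' (σ a) (σ b)

abbrev A := alternatingGroup (Fin 5)

theorem Anc : ∃ a b : A, a * b ≠ b * a := by
  by_contra h
  push Not at h
  have := h ⟨finRotate 5, Equiv.Perm.mem_alternatingGroup.2 (by decide)⟩
    ⟨Equiv.swap 0 1 * Equiv.swap 1 2, Equiv.Perm.mem_alternatingGroup.2 (by decide)⟩
  exact absurd (congrArg Subtype.val this) (by decide)

theorem Aperf (K : Subgroup A) (h : ∀ a b : A, ⁅a, b⁆ ∈ K) : K = ⊤ := by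
  obtain ⟨a, b, hab⟩ := Anc
  rcases (inferInstance : (commutator A).Normal).eq_bot_or_eq_top with h1 | h1
  · have : ⁅a, b⁆ ∈ commutator A := Subgroup.commutator_mem_commutator trivial trivial
    rw [h1, Subgroup.mem_bot, commutatorElement_eq_one_iff_mul_comm] at this
    exact absurd this hab
  · rw [eq_top_iff, ← h1]
    exact Subgroup.commutator_le.2 fun a _ b _ => h a b

def W := {ω : ℤ → A // ∃ N, ∀ k < N, ω k = 1}

def ag (n : ℤ) (p q : W) : Prop := ∀ k < n, p.1 k = q.1 k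

open Classical in
noncomputable def gf (n : ℤ) (p : W) (a : A) (ω : W) : W :=
  ⟨fun k => if k = n ∧ ag n ω p then a * ω.1 k else ω.1 k, by
    obtain ⟨N, hN⟩ := ω.2
    exact ⟨min N n, fun k hk => (if_neg (fun h => by omega)).trans (hN k (by omega))⟩⟩

theorem gf_lt {n k : ℤ} (p : W) (a : A) (ω : W) (h : k ≠ n) : (gf n p a ω).1 k = ω.1 k :=
  if_neg fun e => h e.1

theorem gf_pos {n k : ℤ} {p : W} (a : A) {ω : W} (h : k = n ∧ ag n ω p) :
    (gf n p a ω).1 k = a * ω.1 k := if_pos h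

theorem gf_neg {n k : ℤ} {p : W} (a : A) {ω : W} (h : ¬ (k = n ∧ ag n ω p)) :
    (gf n p a ω).1 k = ω.1 k := if_neg h

theorem ag_gf (n : ℤ) (p q : W) (a : A) (ω : W) : ag n (gf n p a ω) q ↔ ag n ω q :=
  forall₂_congr fun k hk => by rw [gf_lt _ _ _ hk.ne]

noncomputable def gen (n : ℤ) (p : W) : A →* Equiv.Perm W :=
  MonoidHom.toHomPerm
    { toFun := fun a => gf n p a
      map_one' := funext fun ω => Subtype.ext (funext fun k => by
        show (gf n p 1 ω).1 k = ω.1 k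
        by_cases h : k = n ∧ ag n ω p
        · rw [gf_pos _ h, one_mul]
        · rw [gf_neg _ h])
      map_mul' := fun a b => funext fun ω => Subtype.ext (funext fun k => by
        show (gf n p (a * b) ω).1 k = (gf n p a (gf n p b ω)).1 k
        have := ag_gf n p p b ω
        by_cases h : k = n ∧ ag n ω p
        · rw [gf_pos _ h, gf_pos _ ⟨h.1, this.2 h.2⟩, gf_pos _ h, mul_assoc]
        · rw [gf_neg _ h, gf_neg _ (fun e => h ⟨e.1, this.1 e.2⟩), gf_neg _ h]) }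

theorem gen_ap (n : ℤ) (p : W) (a : A) (ω : W) : gen n p a ω = gf n p a ω := rfl

def T1 : Subgroup (Equiv.Perm W) := Subgroup.closure {g | ∃ n p a, g = gen n p a}

noncomputable def gn (n : ℤ) (p : W) : A →* T1 :=
  (gen n p).codRestrict T1 fun a => Subgroup.subset_closure ⟨n, p, a, rfl⟩

theorem ind {P : Equiv.Perm W → Prop} (h1 : P 1) (h2 : ∀ n p a g, P g → P (gen n p a * g))
    (g : T1) : P g.1 := by
  refine Subgroup.closure_induction_left (p := fun g _ => P g) h1 ?_ ?_ g.2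
  · rintro _ ⟨n, p, a, rfl⟩ g _ h; exact h2 n p a g h
  · rintro _ ⟨n, p, a, rfl⟩ g _ h; rw [← map_inv]; exact h2 n p _ g h

theorem causal (g : T1) (n : ℤ) (p q : W) (h : ag n p q) : ag n (g.1 p) (g.1 q) := by
  refine ind (P := fun g => ag n (g p) (g q)) h (fun m r a g h k hk => ?_) g
  show (gf m r a (g p)).1 k = (gf m r a (g q)).1 k
  have : (k = m ∧ ag m (g p) r) ↔ (k = m ∧ ag m (g q) r) :=
    and_congr_right fun e => forall₂_congr fun j hj => by rw [h j (by omega)]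
  by_cases e : k = m ∧ ag m (g p) r
  · rw [gf_pos _ e, gf_pos _ (this.1 e), h k hk]
  · rw [gf_neg _ e, gf_neg _ (mt this.2 e), h k hk]

theorem trans1 (n : ℤ) (p : W) : ∃ t : T1, ag n (t.1 ⟨1, 0, fun _ _ => rfl⟩) p := by
  obtain ⟨N, hN⟩ := p.2
  rcases le_total n N with h | h
  · exact ⟨1, fun k hk => (hN k (by omega)).symm⟩
  induction n, h using Int.le_induction with
  | base => exact ⟨1, fun k hk => (hN k hk).symm⟩
  | succ n _ ih =>
    obtain ⟨t, ht⟩ := ih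
    refine ⟨gn n p (p.1 n * ((t.1 ⟨1, 0, fun _ _ => rfl⟩).1 n)⁻¹) * t, fun k hk => ?_⟩
    show (gf _ _ _ _).1 k = _
    by_cases e : k = n
    · subst e; simp [gf, ht]
    · rw [gf_lt _ _ _ e]; exact ht k (by omega)

theorem big (N : Subgroup T1) [hN : N.Normal] (h : N ≠ ⊥) :
    ∃ n, ∀ m ≥ n, ∀ p a, gn m p a ∈ N := by
  obtain ⟨⟨g, hg⟩, hg1⟩ := Subgroup.ne_bot_iff_exists_ne_one.1 h
  obtain ⟨ω, k, hk⟩ : ∃ ω k, (g.1 ω).1 k ≠ ω.1 k := by
    by_contra hh
    push Not at hh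
    exact hg1 (Subtype.ext (Subtype.ext (Equiv.ext fun ω => Subtype.ext (funext (hh ω)))))
  refine ⟨k + 1, fun m hm p a => ?_⟩
  obtain ⟨g', hg', hp⟩ : ∃ g' ∈ N, ¬ ag m (g'.1 p) p := by
    obtain ⟨t, ht⟩ := trans1 m p
    obtain ⟨s, hs⟩ := trans1 m ω
    have e : ag m ((s * t⁻¹).1 p) ω := fun j hj =>
      (causal (s * t⁻¹) m _ _ ht j hj).symm.trans (by simpa using hs j hj)
    refine ⟨(s * t⁻¹)⁻¹ * g * (s * t⁻¹), by simpa using hN.conj_mem g hg (s * t⁻¹)⁻¹, fun h => hk ?_⟩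
    have h2 := causal (s * t⁻¹) m _ _ h k (by omega)
    have e2 : (s * t⁻¹).1 (((s * t⁻¹)⁻¹ * g * (s * t⁻¹)).1 p) = g.1 ((s * t⁻¹).1 p) := by simp
    rw [e2, e k (by omega), causal g m _ _ e k (by omega)] at h2
    exact h2
  refine (Aperf (N.comap (gn m p)) fun a b => ?_).ge trivial
  rw [Subgroup.mem_comap, map_commutatorElement]
  have hc : Commute (g' * (gn m p a)⁻¹ * g'⁻¹) (gn m p b) := by
    refine Subtype.ext (Equiv.Perm.Disjoint.commute fun ω => ?_)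
    by_cases e : ag m ω p
    · left
      show g'.1 ((gen m p a)⁻¹ (g'.1⁻¹ ω)) = ω
      have : ¬ ag m (g'.1⁻¹ ω) p := fun h => hp fun j hj =>
        (causal g' m _ _ h j hj).symm.trans (by simpa using e j hj)
      rw [← map_inv, gen_ap, show gf m p a⁻¹ (g'.1⁻¹ ω) = g'.1⁻¹ ω from
        Subtype.ext (funext fun k => if_neg fun h => this h.2)]
      simp
    · exact Or.inr (Subtype.ext (funext fun k => if_neg fun h => e h.2))
  have h1 : gn m p a * (g' * (gn m p a)⁻¹ * g'⁻¹) ∈ N := by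
    simpa [mul_assoc] using N.mul_mem (hN.conj_mem g' hg' (gn m p a)) (N.inv_mem hg')
  have h2 := N.mul_mem h1 (hN.conj_mem _ (N.inv_mem h1) (gn m p b))
  convert h2 using 1
  generalize g' * (gn m p a)⁻¹ * g'⁻¹ = u at hc
  rw [commutatorElement_def]
  calc _ = gn m p a * (u * gn m p b * u⁻¹) * (gn m p a)⁻¹ * (gn m p b)⁻¹ := by
        rw [hc.eq]; group
    _ = _ := by group

theorem gn_inj (n : ℤ) (p : W) : Function.Injective (gn n p) := by
  rw [injective_iff_map_eq_one]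
  intro a h
  have := congrArg (fun g : T1 => (g.1 p).1 n) h
  have e : ag n p p := fun _ _ => rfl
  simpa [gn, gen_ap, gf, e] using this

def w0 : W := ⟨1, 0, fun _ _ => rfl⟩

theorem prime (N M : Subgroup T1) [N.Normal] [M.Normal] (h : ∀ x ∈ N, ∀ y ∈ M, x * y = y * x) :
    N = ⊥ ∨ M = ⊥ := by
  by_contra hh
  push Not at hh
  obtain ⟨n, hn⟩ := big N hh.1
  obtain ⟨m, hm⟩ := big M hh.2
  obtain ⟨a, b, hab⟩ := Anc
  have := h _ (hn (max n m) (le_max_left _ _) w0 a) _ (hm (max n m) (le_max_right _ _) w0 b)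
  rw [← map_mul, ← map_mul] at this
  exact hab (gn_inj _ _ this)

def sh (d : ℤ) (ω : W) : W := ⟨fun k => ω.1 (k + d), by
  obtain ⟨N, hN⟩ := ω.2
  exact ⟨N - d, fun k hk => hN _ (by omega)⟩⟩

def shp (d : ℤ) : Equiv.Perm W where
  toFun := sh d
  invFun := sh (-d)
  left_inv ω := Subtype.ext (funext fun k => by simp [sh])
  right_inv ω := Subtype.ext (funext fun k => by simp [sh])

theorem sh_gen (d n : ℤ) (p : W) (a : A) :
    shp d * gen n p a * (shp d)⁻¹ = gen (n - d) (sh d p) a := by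
  rw [mul_inv_eq_iff_eq_mul]
  ext1 ω
  refine Subtype.ext (funext fun k => ?_)
  show (gf n p a ω).1 (k + d) = (gf (n - d) (sh d p) a (sh d ω)).1 k
  have : (k + d = n ∧ ag n ω p) ↔ (k = n - d ∧ ag (n - d) (sh d ω) (sh d p)) :=
    and_congr (by omega) ⟨fun h j hj => h _ (by omega), fun h j hj => by
      simpa [sh] using h (j - d) (by omega)⟩
  by_cases e : k + d = n ∧ ag n ω p
  · rw [gf_pos _ e, gf_pos _ (this.1 e)]; rfl
  · rw [gf_neg _ e, gf_neg _ (mt this.2 e)]; rfl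

theorem sh_mem (d : ℤ) (g : T1) : shp d * g.1 * (shp d)⁻¹ ∈ T1 := by
  refine ind (P := fun g => shp d * g * (shp d)⁻¹ ∈ T1) (by simp) (fun n p a g h => ?_) g
  have := T1.mul_mem (gn (n - d) (sh d p) a).2 h
  convert this using 1
  show _ = gen _ _ _ * _
  rw [← sh_gen]; group

def sha (d : ℤ) : MulAut T1 where
  toFun g := ⟨_, sh_mem d g⟩
  invFun g := ⟨(shp d)⁻¹ * g.1 * shp d, by
    have := sh_mem (-d) g
    have e : shp (-d) = (shp d)⁻¹ := Equiv.ext fun ω => rfl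
    rwa [e, inv_inv] at this⟩
  left_inv g := Subtype.ext (by simp [mul_assoc])
  right_inv g := Subtype.ext (by simp [mul_assoc])
  map_mul' g h := Subtype.ext (by simp [mul_assoc])

theorem top_of (N : Subgroup T1) [N.Normal] (h : N ≠ ⊥) (hs : ∀ d, ∀ g ∈ N, sha d g ∈ N) :
    N = ⊤ := by
  obtain ⟨n, hn⟩ := big N h
  refine eq_top_iff.2 fun g _ => ?_
  have : g.1 ∈ N.map T1.subtype := by
    refine ind (P := fun g => g ∈ N.map T1.subtype) (one_mem _) (fun m p a g h => mul_mem ?_ h) g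
    refine ⟨_, hs (n - m) _ (hn n le_rfl (sh (m - n) p) a), (sh_gen _ _ _ _).trans ?_⟩
    congr 2
    · omega
    · exact Subtype.ext (funext fun k => congrArg p.1 (by ring))
  obtain ⟨x, hx, e⟩ := this
  rwa [← Subtype.ext e]

def L (n : ℤ) : Subgroup T1 where
  carrier := {g | ∀ ω, ag n (g.1 ω) ω}
  mul_mem' := fun {g h} hg hh ω k hk => (hg _ k hk).trans (hh ω k hk)
  one_mem' := fun _ _ _ => rfl
  inv_mem' := fun {g} hg ω k hk => by simpa using (hg (g.1⁻¹ ω) k hk).symm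

instance (n : ℤ) : (L n).Normal :=
  ⟨fun g hg h ω k hk => by simpa using causal h n _ _ (hg (h.1⁻¹ ω)) k hk⟩

abbrev T := Fin 2 → T1
noncomputable abbrev sg (i : Fin 2) : T1 →* T := MonoidHom.mulSingle (fun _ => T1) i

theorem sg_inj (i : Fin 2) : Function.Injective (sg i) := fun x y h => by
  simpa using congrFun h i

theorem a0 : ∃ a : A, a ≠ 1 := by
  obtain ⟨a, b, h⟩ := Anc
  exact ⟨a, fun e => h (by simp [e])⟩

theorem top_ne : (⊤ : Subgroup T1) ≠ ⊥ := fun h => by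
  obtain ⟨a, ha⟩ := a0
  have : gn 0 w0 a ∈ (⊥ : Subgroup T1) := h ▸ trivial
  exact ha (gn_inj _ _ (by rw [map_one]; exact this))

theorem conj_sg (i : Fin 2) (x : T1) (t : T) : t * sg i x * t⁻¹ = sg i (t i * x * (t i)⁻¹) := by
  funext j
  by_cases e : j = i
  · subst e; simp
  · simp [e]

theorem nsg (i : Fin 2) (N : Subgroup T1) [hN : N.Normal] : (N.map (sg i)).Normal :=
  ⟨by rintro _ ⟨x, hx, rfl⟩ t; exact ⟨_, hN.conj_mem x hx (t i), (conj_sg i x t).symm⟩⟩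

theorem meet (C : Subgroup T) [hC : C.Normal] (h : C ≠ ⊥) : ∃ i, C.comap (sg i) ≠ ⊥ := by
  obtain ⟨⟨c, hc⟩, hc1⟩ := Subgroup.ne_bot_iff_exists_ne_one.1 h
  obtain ⟨i, hi⟩ := Function.ne_iff.1 fun e : c = 1 => hc1 (Subtype.ext e)
  refine ⟨i, fun e => ?_⟩
  rcases prime (Subgroup.center T1) ⊤ (fun x hx y _ => (Subgroup.mem_center_iff.1 hx y).symm)
    with h1 | h1
  · refine hi ((Subgroup.mem_bot.1 (h1 ▸ Subgroup.mem_center_iff.2 fun y => ?_)))
    have : y * (c i * y⁻¹ * (c i)⁻¹) ∈ C.comap (sg i) := by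
      rw [Subgroup.mem_comap, map_mul, ← conj_sg, map_inv]
      have := C.mul_mem (hC.conj_mem c hc (sg i y)) (C.inv_mem hc)
      simpa only [mul_assoc] using this
    rw [e, Subgroup.mem_bot] at this
    calc y * c i = y * (c i * y⁻¹ * (c i)⁻¹) * (c i * y) := by group
      _ = _ := by rw [this, one_mul]
  · exact top_ne h1

theorem nomin (C : Subgroup T) [hC : C.Normal] (h : C ≠ ⊥) :
    ∃ C' : Subgroup T, C'.Normal ∧ C' ≠ ⊥ ∧ C' < C := by
  obtain ⟨i, hi⟩ := meet C h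
  obtain ⟨n, hn⟩ := big _ hi
  obtain ⟨a, ha⟩ := a0
  refine ⟨(C.comap (sg i) ⊓ L (n + 1)).map (sg i), nsg _ _, fun e => ?_,
    lt_of_le_of_ne (by rintro _ ⟨x, hx, rfl⟩; exact hx.1) fun e => ?_⟩
  · rw [Subgroup.map_eq_bot_iff_of_injective _ (sg_inj i)] at e
    have : gn (n + 1) w0 a ∈ C.comap (sg i) ⊓ L (n + 1) :=
      ⟨hn _ (by omega) _ _, fun ω k hk => gf_lt _ _ _ hk.ne⟩
    rw [e] at this
    exact ha (gn_inj _ _ (by rw [map_one]; exact this))
  · have := hn n le_rfl w0 a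
    rw [Subgroup.mem_comap, ← e] at this
    obtain ⟨x, hx, e2⟩ := this
    rw [sg_inj i e2] at hx
    have := hx.2 w0 n (by omega)
    have e3 : ag n w0 w0 := fun _ _ => rfl
    exact ha (by simpa [gn, gen_ap, gf, e3] using this)

theorem dec (x : T) : x = sg 0 (x 0) * sg 1 (x 1) := by
  funext j; fin_cases j <;> simp

theorem aut (α : MulAut T) : ∃ s : Equiv.Perm (Fin 2), ∀ i (z : T), α z (s i) = 1 ↔ z i = 1 := by
  let f : Fin 2 → Fin 2 → T1 →* T1 := fun i j =>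
    (Pi.evalMonoidHom (fun _ => T1) j).comp (α.toMonoidHom.comp (sg i))
  have hn : ∀ i j, (f i j).range.Normal := fun i j => ⟨by
    rintro _ ⟨x, rfl⟩ y
    refine ⟨α.symm (sg j y) i * x * (α.symm (sg j y) i)⁻¹, ?_⟩
    show α (sg i _) j = y * α (sg i x) j * y⁻¹
    rw [← conj_sg]; simp⟩
  have h1 : ∀ j, (∀ x, α (sg 0 x) j = 1) ∨ ∀ x, α (sg 1 x) j = 1 := fun j => by
    have := hn 0 j; have := hn 1 j
    rcases prime (f 0 j).range (f 1 j).range (by
      rintro _ ⟨x, rfl⟩ _ ⟨y, rfl⟩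
      show (α (sg 0 x) * α (sg 1 y)) j = (α (sg 1 y) * α (sg 0 x)) j
      rw [← map_mul, ← map_mul, show sg 0 x * sg 1 y = sg 1 y * sg 0 x by
        funext l; fin_cases l <;> simp])
      with h | h
    · exact Or.inl fun x => Subgroup.mem_bot.1 (h ▸ ⟨x, rfl⟩)
    · exact Or.inr fun x => Subgroup.mem_bot.1 (h ▸ ⟨x, rfl⟩)
  have h2 : ∀ i x, α (sg i x) 0 = 1 → α (sg i x) 1 = 1 → x = 1 := fun i x a b =>
    sg_inj i (α.injective (by rw [map_one, map_one]; funext j; fin_cases j <;> assumption))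
  have h3 : ∀ (z : T) j, α z j = α (sg 0 (z 0)) j * α (sg 1 (z 1)) j := fun z j => by
    conv_lhs => rw [dec z, map_mul]
    rfl
  obtain ⟨⟨x, hx0⟩, hx⟩ := Subgroup.ne_bot_iff_exists_ne_one.1 top_ne
  have hx : x ≠ 1 := fun e => hx (Subtype.ext e)
  rcases h1 0 with a | a <;> rcases h1 1 with b | b
  · exact absurd (h2 0 x (a x) (b x)) hx
  · refine ⟨Equiv.swap 0 1, Fin.forall_fin_two.2 ⟨fun z => ?_, fun z => ?_⟩⟩
    · rw [Equiv.swap_apply_left, h3, b, mul_one]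
      exact ⟨h2 0 _ (a _), fun e => by simp [e]⟩
    · rw [Equiv.swap_apply_right, h3, a, one_mul]
      exact ⟨fun e => h2 1 _ e (b _), fun e => by simp [e]⟩
  · refine ⟨1, Fin.forall_fin_two.2 ⟨fun z => ?_, fun z => ?_⟩⟩
    · rw [Equiv.Perm.one_apply, h3, a, mul_one]
      exact ⟨fun e => h2 0 _ e (b _), fun e => by simp [e]⟩
    · rw [Equiv.Perm.one_apply, h3, b, one_mul]
      exact ⟨h2 1 _ (a _), fun e => by simp [e]⟩
  · exact absurd (h2 1 x (a x) (b x)) hx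

theorem rel_iff {m : ℕ} (x y : Fin (m + 1) → T) :
    (⟦x⟧ : Om T m) = ⟦y⟧ ↔ ∀ j, y j * (x j)⁻¹ = y 0 * (x 0)⁻¹ := by
  rw [Quotient.eq, QuotientGroup.rightRel_apply]
  exact ⟨fun ⟨t, ht⟩ j => (congrFun ht j).symm.trans (congrFun ht 0),
    fun h => ⟨_, funext fun j => (h j).symm⟩⟩

theorem cst {m : ℕ} (x y : Fin (m + 1) → T1) :
    ((fun j : Fin m => (x 0)⁻¹ * x j.succ) = fun j => (y 0)⁻¹ * y j.succ) ↔
      ∀ j l, (y j * (x j)⁻¹) * (y l * (x l)⁻¹)⁻¹ = 1 := by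
  constructor
  · intro h
    have : ∀ j, y j * (x j)⁻¹ = y 0 * (x 0)⁻¹ := Fin.cases rfl fun j => by
      have := congrFun h j
      calc _ = y 0 * ((y 0)⁻¹ * y j.succ) * ((x 0)⁻¹ * x j.succ)⁻¹ * (x 0)⁻¹ := by group
        _ = _ := by rw [← this]; group
    intro j l; rw [this j, this l, mul_inv_cancel]
  · intro h
    funext j
    calc _ = (y 0)⁻¹ * ((y 0 * (x 0)⁻¹) * (y j.succ * (x j.succ)⁻¹)⁻¹) * y j.succ := by group
      _ = _ := by rw [h]; group

noncomputable def ee (m : ℕ) : Om T m ≃ (Fin 2 → Fin m → T1) where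
  toFun := Quotient.lift (fun x i j => (x 0 i)⁻¹ * x j.succ i) fun x y h => funext fun i =>
    (cst (fun j => x j i) (fun j => y j i)).2 fun j l => by
      have := (rel_iff x y).1 (Quotient.sound h)
      rw [mul_inv_eq_one]
      exact congrFun ((this j).trans (this l).symm) i
  invFun f := ⟦Fin.cons 1 fun j i => f i j⟧
  left_inv := Quotient.ind fun x => (rel_iff _ _).2 (Fin.cases rfl fun j => by funext i; simp)
  right_inv f := by funext i j; simp

theorem cart (m : ℕ) (σ : Equiv.Perm (Om T m)) (h : σ ∈ DG T m) : ∃ s : Equiv.Perm (Fin 2),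
    ∀ i a b, ee m (σ a) (s i) = ee m (σ b) (s i) ↔ ee m a i = ee m b i := by
  have c : ∀ (x y : Fin (m + 1) → T) i, ee m ⟦x⟧ i = ee m ⟦y⟧ i ↔
      ∀ j l, ((y j * (x j)⁻¹) * (y l * (x l)⁻¹)⁻¹) i = 1 :=
    fun x y i => cst (fun j => x j i) (fun j => y j i)
  induction h using Subgroup.closure_induction with
  | mem σ h =>
    rcases h with ⟨z, h⟩ | ⟨α, h⟩ | ⟨π, h⟩
    · refine ⟨1, fun i => Quotient.ind₂ fun x y => ?_⟩
      rw [h, h, c, c]; simp [mul_assoc]
    · obtain ⟨s, hs⟩ := aut α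
      refine ⟨s, fun i => Quotient.ind₂ fun x y => ?_⟩
      rw [h, h, c, c]
      simp only [← map_inv, ← map_mul, hs]
    · refine ⟨1, fun i => Quotient.ind₂ fun x y => ?_⟩
      rw [h, h, c, c]
      exact ⟨fun e j l => by simpa using e (π.symm j) (π.symm l), fun e j l => e _ _⟩
  | one => exact ⟨1, fun _ _ _ => Iff.rfl⟩
  | mul σ τ _ _ h1 h2 =>
    obtain ⟨s, hs⟩ := h1
    obtain ⟨t, ht⟩ := h2
    exact ⟨s * t, fun i a b => (hs _ _ _).trans (ht _ _ _)⟩
  | inv σ _ h1 =>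
    obtain ⟨s, hs⟩ := h1
    exact ⟨s⁻¹, fun i a b => by simpa using (hs (s⁻¹ i) (σ⁻¹ a) (σ⁻¹ b)).symm⟩

theorem result : ∃ (T : Type) (_ : Group T), (∃ a b : T, a * b ≠ b * a) ∧ CharSimple T ∧
    ¬ IsSimpleGroup T ∧ ¬ FCR T ∧ ∀ m, 1 < m → PresCart (DG T m) := by
  obtain ⟨a, b, hab⟩ := Anc
  have nc : sg 0 (gn 0 w0 a) * sg 0 (gn 0 w0 b) ≠ sg 0 (gn 0 w0 b) * sg 0 (gn 0 w0 a) := by
    simp only [← map_mul]
    exact fun e => hab (gn_inj _ _ (sg_inj _ e))
  have nt : Nontrivial T := ⟨_, _, nc⟩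
  have nt1 : Nontrivial T1 := (gn_inj 0 w0).nontrivial
  refine ⟨T, inferInstance, ⟨_, _, nc⟩, ⟨nt, fun C hC => ?_⟩, fun h => ?_, ?_, fun m hm => ?_⟩
  · refine or_iff_not_imp_left.2 fun h => ?_
    obtain ⟨i, hi⟩ := meet C h
    have hc := Subgroup.characteristic_iff_le_comap.1 hC
    have h1 := top_of _ hi fun d g hg => by
      have := hc (MulEquiv.piCongrRight fun _ => sha d) hg
      rw [Subgroup.mem_comap] at this ⊢
      convert this using 1
      funext j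
      by_cases e : j = i
      · subst e; simp
      · simp [e]
    have h2 : ∀ j x, sg j x ∈ C := fun j x => by
      have := hc (MulEquiv.arrowCongr (Equiv.swap i j) (MulEquiv.refl T1))
        (show x ∈ C.comap (sg i) from h1 ▸ trivial)
      rw [Subgroup.mem_comap] at this
      convert this using 1
      funext l
      simp [Pi.mulSingle_apply, Equiv.swap_apply_eq_iff]
    exact eq_top_iff.2 fun x _ => dec x ▸ C.mul_mem (h2 _ _) (h2 _ _)
  · obtain ⟨C, h1, h2, h3⟩ := nomin ⊤ top_ne_bot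
    rcases h1.eq_bot_or_eq_top with e | e
    · exact h2 e
    · exact h3.ne e
  · rintro ⟨S, _, k, hS, -, hk, ⟨φ⟩⟩
    let i : Fin k := ⟨0, hk⟩
    let f : S →* T := φ.symm.toMonoidHom.comp (MonoidHom.mulSingle (fun _ => S) i)
    have hf : Function.Injective f := φ.symm.injective.comp fun x y h => by
      simpa using congrFun h i
    have : f.range.Normal := ⟨by
      rintro _ ⟨x, rfl⟩ t
      refine ⟨φ t i * x * (φ t i)⁻¹, φ.injective ?_⟩
      funext j
      by_cases e : j = i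
      · subst e; simp [f]
      · simp [f, e]⟩
    obtain ⟨C, h1, h2, h3⟩ := nomin f.range (by
      rw [MonoidHom.range_eq_map, Ne, Subgroup.map_eq_bot_iff_of_injective _ hf]; exact top_ne_bot)
    have e := Subgroup.map_comap_eq_self h3.le
    rcases (h1.comap f).eq_bot_or_eq_top with e2 | e2
    · exact h2 (by rw [← e, e2, Subgroup.map_bot])
    · exact h3.ne (by rw [← e, e2, MonoidHom.range_eq_map])
  · have : Nonempty (Fin m) := ⟨⟨0, by omega⟩⟩
    refine ⟨Fin m → T1, 2, ee m, inferInstance, le_rfl, fun σ h => ?_⟩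
    obtain ⟨s, hs⟩ := cart m σ h
    have key : ∀ J' a b, Q (ee m) (s ⁻¹' J') a b ↔ Q (ee m) J' (σ a) (σ b) := fun J' a b =>
      ⟨fun q i hi => by
        obtain ⟨i, rfl⟩ := s.surjective i
        exact (hs _ _ _).2 (q i hi), fun q i hi => (hs _ _ _).1 (q _ hi)⟩
    refine ⟨fun J => ⟨s '' J, fun a b => ?_⟩, fun J' => ⟨_, key J'⟩⟩
    rw [← key, s.preimage_image]

end Pool.Agent.Results.MP_f6f6d4_al.Yes
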